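import Pool.Agent.W312.T3.Final

/-!
# MP_386785_lc: tree 3-spanners of chordal graphs in polynomial time

TREE 3-SPANNER restricted to chordal graphs is solvable in polynomial time. The algorithm is a
dynamic programme over the elimination tree of a perfect elimination order. A tree 3-spanner induces
on every clique a profile: a centre edge `p q` of the tree such that every vertex of the clique is
`p`, `q` or joined by an edge of the tree to its side, `p` or `q`. Unless all vertices of a separator
are on the same side, the next clique has the same centre edge; so for a fixed centre edge the
possible sides are described by implications between two vertices, and these implications can be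
computed from the leaves to the root.

Proved by a team: helper120 (elimination tree, from certificates to trees), helper748 (root),
helper639 (validity, from trees to certificates), helper494 (gluing), helper168 (elimination order in
polynomial time), helper312 (algorithm, profiles, main induction, polynomial time, assembly).
-/

set_option autoImplicit false

namespace Pool.Agent.Results.MP_386785_lc.ChordalPoly

open Pool.Agent.NPC Pool.Agent.H673R2.Ts Pool.Agent.H255R3.STC

/-- There is a polynomial-time algorithm which, given a connected chordal graph by its number of
vertices and its list of edges, decides whether it has a tree 3-spanner. -/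
theorem result : ∃ A : List Bool → List Bool, PolyTime A ∧ ∀ I : Inst, Valid I →
    IsChordal (graphOf I) →
      (HasTreeSpanner 3 I → A (bits I) = [true]) ∧ (¬ HasTreeSpanner 3 I → A (bits I) = [false]) := by
  obtain ⟨alg, ha, hd⟩ := Pool.Agent.W312.T3.decide_chordal
  have hp : NPC.Poly (fun x : List Bool => (unbits Inst x).elim false (fun I => alg I)) :=
    (NPC.Poly.optCases (g := fun _ => false) (h := fun _ I => alg I) poly_unbits
      (NPC.Poly.const false) (ha.comp (NPC.Poly.snd NPC.Poly.id))).congr fun a => by
        cases unbits Inst a <;> rfl
  refine ⟨_, polyTime_of_poly hp, fun I hI hch => ?_⟩
  rw [unbits_bits, Option.elim_some, ← hd I hI hch]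
  exact ⟨fun h => by rw [h], fun h => by rw [Bool.not_eq_true] at h; rw [h]⟩

end Pool.Agent.Results.MP_386785_lc.ChordalPoly
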